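import Mathlib

/-!
# MP_924486: the cubes form a sublacunary set which is an interpolation set for distal
sequences.
-/

namespace Pool.Agent.Results.MP_924486_an.SublacunaryInterpolation

open Set Filter Topology Function

/-- The system `(X,T)` is distal: distinct points have `inf_{n ≥ 1} d(T^n x, T^n y) > 0`. -/
def IsDistal {X : Type*} [MetricSpace X] (T : X → X) : Prop :=
  ∀ x y : X, x ≠ y → ∃ c > 0, ∀ n : ℕ, 1 ≤ n → c ≤ dist (T^[n] x) (T^[n] y)

/-- `ψ : ℕ → ℂ` (on `ℕ = {1,2,…}`) is a distal sequence. -/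
def IsDistalSequence (ψ : ℕ → ℂ) : Prop :=
  ∃ (X : Type) (_ : MetricSpace X) (_ : CompactSpace X) (T : X → X) (x : X) (F : X → ℂ),
    Continuous T ∧ IsDistal T ∧ Continuous F ∧ ∀ n : ℕ, 1 ≤ n → ψ n = F (T^[n] x)

/-- `E ⊆ {1,2,…}` is an interpolation set for distal sequences. -/
def IsInterpolationSet (E : Set ℕ) : Prop :=
  ∀ f : ℕ → ℂ, (∃ C : ℝ, ∀ n ∈ E, ‖f n‖ ≤ C) →
    ∃ ψ : ℕ → ℂ, IsDistalSequence ψ ∧ ∀ n ∈ E, ψ n = f n

/-- `E = {r_1 < r_2 < ⋯}` is sublacunary: `(log r_n)/n → 0` (here `r_n` is `r (n-1)`). -/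
def IsSublacunary (E : Set ℕ) : Prop :=
  ∃ r : ℕ → ℕ, StrictMono r ∧ E = range r ∧
    Tendsto (fun n : ℕ => Real.log (r n) / ((n : ℝ) + 1)) atTop (𝓝 0)

/-! ### The correction lemma -/

/-- one correction step -/
lemma step {X : Type*} [TopologicalSpace X] [T2Space X] [NormalSpace X] (x : ℕ → X)
    (hx : Injective x) (a b : ℕ) (hab : a < b) (G : X → ℝ) (hG : Continuous G) (θ : ℝ) :
    ∃ G' : X → ℝ, Continuous G' ∧ (∀ j < a, G' (x j) = G (x j)) ∧
      (∀ y, |G' y - G y| ≤ Real.pi / ((b : ℝ) - a)) ∧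
      ∃ m : ℤ, ∑ j ∈ Finset.range b, G' (x j) = θ + 2 * Real.pi * m := by
  classical
  obtain ⟨B, hB⟩ : ∃ B, B = ∑ j ∈ Finset.range b, G (x j) := ⟨_, rfl⟩
  obtain ⟨c, hc⟩ : ∃ c, c = (θ - B) - 2 * Real.pi * round ((θ - B) / (2 * Real.pi)) := ⟨_, rfl⟩
  have hpi := Real.pi_pos
  have hcabs : |c| ≤ Real.pi := by
    have h1 := abs_sub_round ((θ - B) / (2 * Real.pi))
    have h2 : c = 2 * Real.pi * ((θ - B) / (2 * Real.pi) - round ((θ - B) / (2 * Real.pi))) := by
      rw [hc]; field_simp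
    rw [h2, abs_mul, abs_of_pos (by positivity)]
    nlinarith
  have hdisj : Disjoint (x '' (Set.Iio a)) (x '' (Set.Ico a b)) := by
    rw [Set.disjoint_image_iff hx]
    rw [Set.disjoint_left]
    intro j hj hj'
    exact absurd hj (not_lt.2 hj'.1)
  obtain ⟨β, hβ0, hβ1, hβ⟩ := exists_continuous_zero_one_of_isClosed
    (((Set.finite_Iio a).image x).isClosed) (((Set.finite_Ico a b).image x).isClosed) hdisj
  have hL : (0 : ℝ) < (b : ℝ) - a := by
    have : (a : ℝ) < b := by exact_mod_cast hab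
    linarith
  refine ⟨fun y => G y + c / ((b : ℝ) - a) * β y, by fun_prop, ?_, ?_, -round ((θ - B) / (2 * Real.pi)), ?_⟩
  · intro j hj
    have := hβ0 ⟨j, hj, rfl⟩
    simp only [Pi.zero_apply] at this
    simp [this]
  · intro y
    have h1 := hβ y
    have h2 : G y + c / ((b : ℝ) - a) * β y - G y = c / ((b : ℝ) - a) * β y := by ring
    rw [h2, abs_mul, abs_div, abs_of_pos hL, abs_of_nonneg h1.1]
    calc |c| / ((b : ℝ) - a) * β y ≤ |c| / ((b : ℝ) - a) * 1 :=
          mul_le_mul_of_nonneg_left h1.2 (by positivity)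
      _ ≤ Real.pi / ((b : ℝ) - a) := by rw [mul_one]; gcongr
  · rw [Finset.sum_add_distrib, ← hB, ← Finset.mul_sum]
    have h1 : ∑ j ∈ Finset.range b, β (x j) = (b : ℝ) - a := by
      have h2 : ∀ j ∈ Finset.range b, β (x j) = if a ≤ j then 1 else 0 := by
        intro j hj
        have hjb := Finset.mem_range.1 hj
        by_cases h : a ≤ j
        · rw [if_pos h]; exact hβ1 ⟨j, ⟨h, hjb⟩, rfl⟩
        · rw [if_neg h]; exact hβ0 ⟨j, not_le.1 h, rfl⟩
      rw [Finset.sum_congr rfl h2, Finset.sum_ite, Finset.sum_const_zero, add_zero,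
        Finset.sum_const, nsmul_eq_mul, mul_one]
      have h3 : (Finset.range b).filter (fun j => a ≤ j) = Finset.Ico a b := by
        ext j; simp [and_comm]
      rw [h3, Nat.card_Ico, Nat.cast_sub hab.le]
    rw [h1, div_mul_cancel₀ _ hL.ne', hc]
    push_cast
    ring

/-- prescribing Birkhoff-type sums along a sequence with summable reciprocal gaps -/
lemma prescribe {X : Type*} [TopologicalSpace X] [T2Space X] [NormalSpace X] (x : ℕ → X)
    (hx : Injective x) (r : ℕ → ℕ) (hr : StrictMono r) (_hr0 : r 0 = 0)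
    (hsum : Summable fun k : ℕ => Real.pi / ((r (k + 1) : ℝ) - r k)) (θ : ℕ → ℝ) :
    ∃ g : X → ℝ, Continuous g ∧ ∀ k, 1 ≤ k → ∃ m : ℤ,
      ∑ j ∈ Finset.range (r k), g (x j) = θ k + 2 * Real.pi * m := by
  classical
  have hstep : ∀ (k : ℕ) (G : {G : X → ℝ // Continuous G}), ∃ G' : {G : X → ℝ // Continuous G},
      (∀ j < r k, G'.1 (x j) = G.1 (x j)) ∧
      (∀ y, |G'.1 y - G.1 y| ≤ Real.pi / ((r (k + 1) : ℝ) - r k)) ∧
      ∃ m : ℤ, ∑ j ∈ Finset.range (r (k + 1)), G'.1 (x j) = θ (k + 1) + 2 * Real.pi * m := by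
    intro k G
    obtain ⟨G', h1, h2, h3, h4⟩ := step x hx (r k) (r (k + 1)) (hr (Nat.lt_succ_self k)) G.1 G.2
      (θ (k + 1))
    exact ⟨⟨G', h1⟩, h2, h3, h4⟩
  choose nxt h1 h2 h3 using hstep
  obtain ⟨G, hG0, hGS⟩ : ∃ G : ℕ → {G : X → ℝ // Continuous G},
      G 0 = ⟨fun _ => 0, continuous_const⟩ ∧ ∀ k, G (k + 1) = nxt k (G k) :=
    ⟨fun n => Nat.rec ⟨fun _ => 0, continuous_const⟩ (fun k g => nxt k g) n, rfl, fun k => rfl⟩
  have hb : ∀ k y, |(G (k + 1)).1 y - (G k).1 y| ≤ Real.pi / ((r (k + 1) : ℝ) - r k) := by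
    intro k y; rw [hGS]; exact h2 k (G k) y
  have hfix : ∀ k j, j < r k → ∀ m, (G (k + m)).1 (x j) = (G k).1 (x j) := by
    intro k j hj m
    induction m with
    | zero => rfl
    | succ m ih =>
      rw [← Nat.add_assoc, hGS, h1 (k + m) (G (k + m)) j
        (lt_of_lt_of_le hj (hr.monotone (Nat.le_add_right k m))), ih]
  refine ⟨fun y => ∑' k, ((G (k + 1)).1 y - (G k).1 y), ?_, ?_⟩
  · refine continuous_tsum (fun k => (G (k + 1)).2.sub (G k).2) hsum fun k y => ?_
    rw [Real.norm_eq_abs]; exact hb k y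
  · intro k hk
    obtain ⟨k, rfl⟩ : ∃ k', k = k' + 1 := ⟨k - 1, by omega⟩
    have hval : ∀ j < r (k + 1), ∑' i, ((G (i + 1)).1 (x j) - (G i).1 (x j)) =
        (G (k + 1)).1 (x j) := by
      intro j hj
      have hz : ∀ i ∉ Finset.range (k + 1), (G (i + 1)).1 (x j) - (G i).1 (x j) = 0 := by
        intro i hi
        have hik : k + 1 ≤ i := by simpa using hi
        obtain ⟨m, rfl⟩ := Nat.exists_eq_add_of_le hik
        have e1 := hfix (k + 1) j hj m
        have e2 := hfix (k + 1) j hj (m + 1)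
        rw [← Nat.add_assoc] at e2
        rw [e1, e2, sub_self]
      rw [tsum_eq_sum hz, Finset.sum_range_sub (fun i => (G i).1 (x j)), hG0]
      simp
    have h4 := h3 k (G k)
    rw [← hGS k] at h4
    obtain ⟨m, hm⟩ := h4
    refine ⟨m, ?_⟩
    rw [← hm]
    exact Finset.sum_congr rfl fun j hj => hval j (Finset.mem_range.1 hj)

/-! ### The skew product -/

abbrev Y := ℤ_[2] × Circle × Circle

/-- the skew product -/
noncomputable def T (g h : ℤ_[2] → ℝ) (p : Y) : Y :=
  (p.1 + 1, p.2.1 * Circle.exp (g p.1), p.2.2 * Circle.exp (h p.1))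

lemma T_cont {g h : ℤ_[2] → ℝ} (hg : Continuous g) (hh : Continuous h) :
    Continuous (T g h) := by
  unfold T
  fun_prop

lemma circle_dist (a b u : Circle) : dist (a * u) (b * u) = dist a b := by
  show dist ((a * u : Circle) : ℂ) ((b * u : Circle) : ℂ) = dist (a : ℂ) (b : ℂ)
  rw [dist_eq_norm, dist_eq_norm]
  have : ((a * u : Circle) : ℂ) - ((b * u : Circle) : ℂ) = ((a : ℂ) - b) * u := by
    push_cast; ring
  calc ‖((a * u : Circle) : ℂ) - ((b * u : Circle) : ℂ)‖ = ‖((a : ℂ) - b) * u‖ := by rw [this]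
    _ = ‖(a : ℂ) - b‖ := by rw [norm_mul, Circle.norm_coe, mul_one]

lemma T_distal (g h : ℤ_[2] → ℝ) : IsDistal (T g h) := by
  classical
  intro p q hpq
  refine ⟨dist p.1 q.1 ⊔ (if p.1 = q.1 then dist p q else 0), ?_, ?_⟩
  · by_cases h1 : p.1 = q.1
    · rw [if_pos h1]
      exact lt_of_lt_of_le (dist_pos.2 hpq) (le_max_right _ _)
    · exact lt_of_lt_of_le (dist_pos.2 h1) (le_max_left _ _)
  · intro n _
    have h1 : dist ((T g h)^[n] p).1 ((T g h)^[n] q).1 = dist p.1 q.1 := by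
      induction n with
      | zero => rfl
      | succ n ih =>
        rw [Function.iterate_succ_apply', Function.iterate_succ_apply']
        simp only [T]
        rw [dist_add_right]
        rcases Nat.eq_zero_or_pos n with rfl | hn
        · rfl
        · exact ih hn
    have h2 : p.1 = q.1 → ((T g h)^[n] p).1 = ((T g h)^[n] q).1 ∧
        dist ((T g h)^[n] p) ((T g h)^[n] q) = dist p q := by
      intro hp
      clear h1
      have key : ∀ n, ((T g h)^[n] p).1 = ((T g h)^[n] q).1 ∧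
          dist ((T g h)^[n] p) ((T g h)^[n] q) = dist p q := by
        intro n
        induction n with
        | zero => exact ⟨hp, rfl⟩
        | succ n ih =>
          rw [Function.iterate_succ_apply', Function.iterate_succ_apply']
          obtain ⟨ih1, ih2⟩ := ih
          generalize (T g h)^[n] p = u at ih1 ih2 ⊢
          generalize (T g h)^[n] q = v at ih1 ih2 ⊢
          refine ⟨by simp only [T, ih1], ?_⟩
          rw [← ih2]
          simp only [T, Prod.dist_eq, ih1, dist_self, circle_dist]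
      exact key n
    refine max_le ?_ ?_
    · rw [← h1, Prod.dist_eq]; exact le_max_left _ _
    · split_ifs with h3
      · exact (h2 h3).2.ge
      · exact dist_nonneg

lemma T_orbit (g h : ℤ_[2] → ℝ) (n : ℕ) : (T g h)^[n] (0, 1, 1) =
    ((n : ℤ_[2]), Circle.exp (∑ j ∈ Finset.range n, g (j : ℤ_[2])),
      Circle.exp (∑ j ∈ Finset.range n, h (j : ℤ_[2]))) := by
  induction n with
  | zero => simp
  | succ n ih =>
    rw [Function.iterate_succ_apply', ih]
    simp only [T]
    rw [Finset.sum_range_succ, Finset.sum_range_succ, Circle.exp_add, Circle.exp_add]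
    push_cast
    rfl

/-- the cubes -/
def cubes : Set ℕ := range fun n : ℕ => (n + 1) ^ 3

lemma cubes_sublacunary : IsSublacunary cubes := by
  refine ⟨fun n => (n + 1) ^ 3, ?_, rfl, ?_⟩
  · intro a b hab
    exact Nat.pow_lt_pow_left (by omega) (by norm_num)
  · have h1 : Tendsto (fun x : ℝ => Real.log x / x) atTop (𝓝 0) :=
      Real.isLittleO_log_id_atTop.tendsto_div_nhds_zero
    have h2 : Tendsto (fun n : ℕ => (n : ℝ) + 1) atTop atTop :=
      tendsto_natCast_atTop_atTop.atTop_add tendsto_const_nhds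
    have h3 := (h1.comp h2).const_mul 3
    rw [mul_zero] at h3
    refine h3.congr fun n => ?_
    simp only [Function.comp]
    push_cast
    rw [Real.log_pow]
    push_cast
    ring

lemma cubes_interpolation : IsInterpolationSet cubes := by
  rintro f ⟨C, hC⟩
  obtain ⟨M, hM⟩ : ∃ M, M = max C 1 := ⟨_, rfl⟩
  have hM0 : 0 < M := by rw [hM]; exact lt_of_lt_of_le one_pos (le_max_right _ _)
  have hfM : ∀ n ∈ cubes, ‖f n‖ ≤ M := fun n hn => by
    rw [hM]; exact (hC n hn).trans (le_max_left _ _)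
  let r : ℕ → ℕ := fun k => k ^ 3
  have hr : StrictMono r := fun a b hab => Nat.pow_lt_pow_left hab (by norm_num)
  have hsum : Summable fun k : ℕ => Real.pi / ((r (k + 1) : ℝ) - r k) := by
    have h1 : Summable fun k : ℕ => Real.pi * (1 / ((k + 1 : ℕ) : ℝ) ^ 2) :=
      ((summable_nat_add_iff 1).2 (Real.summable_one_div_nat_pow.2 (by norm_num))).mul_left _
    refine Summable.of_nonneg_of_le (fun k => ?_) (fun k => ?_) h1
    · have : (r k : ℝ) < r (k + 1) := by exact_mod_cast hr (Nat.lt_succ_self k)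
      have := Real.pi_pos
      apply div_nonneg this.le
      linarith
    · have h2 : ((k + 1 : ℕ) : ℝ) ^ 2 ≤ (r (k + 1) : ℝ) - r k := by
        simp only [r]
        push_cast
        have : (0 : ℝ) ≤ k := Nat.cast_nonneg k
        nlinarith
      rw [mul_one_div]
      have h3 : (0 : ℝ) < ((k + 1 : ℕ) : ℝ) ^ 2 := by positivity
      gcongr
  have hinj : Injective (fun j : ℕ => (j : ℤ_[2])) := Nat.cast_injective
  obtain ⟨g, hg, hg2⟩ := prescribe (fun j : ℕ => (j : ℤ_[2])) hinj r hr (by simp [r]) hsum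
    (fun k => Real.arccos ((f (k ^ 3)).re / M))
  obtain ⟨h, hh, hh2⟩ := prescribe (fun j : ℕ => (j : ℤ_[2])) hinj r hr (by simp [r]) hsum
    (fun k => Real.arccos ((f (k ^ 3)).im / M))
  let F : Y → ℂ := fun p => (M * (p.2.1 : ℂ).re : ℝ) + (M * (p.2.2 : ℂ).re : ℝ) * Complex.I
  refine ⟨fun n => F ((T g h)^[n] (0, 1, 1)), ⟨Y, inferInstance, inferInstance, T g h, (0, 1, 1),
    F, T_cont hg hh, T_distal g h, ?_, fun n _ => rfl⟩, ?_⟩
  · have c1 : Continuous fun p : Y => (M * (p.2.1 : ℂ).re : ℝ) :=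
      continuous_const.mul (Complex.continuous_re.comp
        (continuous_subtype_val.comp (continuous_fst.comp continuous_snd)))
    have c2 : Continuous fun p : Y => (M * (p.2.2 : ℂ).re : ℝ) :=
      continuous_const.mul (Complex.continuous_re.comp
        (continuous_subtype_val.comp (continuous_snd.comp continuous_snd)))
    exact (Complex.continuous_ofReal.comp c1).add
      ((Complex.continuous_ofReal.comp c2).mul continuous_const)
  · rintro _ ⟨n, rfl⟩
    simp only
    rw [T_orbit]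
    obtain ⟨m1, hm1⟩ := hg2 (n + 1) (by omega)
    obtain ⟨m2, hm2⟩ := hh2 (n + 1) (by omega)
    simp only [r] at hm1 hm2
    have hn := hfM _ ⟨n, rfl⟩
    simp only at hn
    have hcos : ∀ (t : ℝ) (m : ℤ), |t| ≤ M →
        (Circle.exp (Real.arccos (t / M) + 2 * Real.pi * m) : ℂ).re = t / M := by
      intro t m ht
      rw [Circle.coe_exp, Complex.exp_ofReal_mul_I_re]
      have e : Real.arccos (t / M) + 2 * Real.pi * m = Real.arccos (t / M) + m * (2 * Real.pi) := by
        ring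
      rw [e, Real.cos_add_int_mul_two_pi]
      have h1 := abs_le.1 ht
      refine Real.cos_arccos ?_ ?_
      · rw [le_div_iff₀ hM0]; linarith
      · rw [div_le_one hM0]; exact h1.2
    simp only [F]
    rw [hm1, hm2, hcos _ _ ((Complex.abs_re_le_norm _).trans hn),
      hcos _ _ ((Complex.abs_im_le_norm _).trans hn)]
    have e1 : M * ((f ((n + 1) ^ 3)).re / M) = (f ((n + 1) ^ 3)).re := by field_simp
    have e2 : M * ((f ((n + 1) ^ 3)).im / M) = (f ((n + 1) ^ 3)).im := by field_simp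
    rw [e1, e2]
    exact Complex.re_add_im _

/-- There is a sublacunary set (the set of cubes) which is an interpolation set for distal
sequences. -/
theorem result : ∃ E : Set ℕ, (∀ n ∈ E, 1 ≤ n) ∧ IsSublacunary E ∧ IsInterpolationSet E :=
  ⟨cubes, by rintro _ ⟨n, rfl⟩; exact Nat.one_le_pow _ _ (by omega), cubes_sublacunary,
    cubes_interpolation⟩

end Pool.Agent.Results.MP_924486_an.SublacunaryInterpolation
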